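import Pool.Agent.H37.CNK.Stmts

/-!
# Row THT: an element of `L^M` of order `-S(M)` whose conjugates add up to `1`
-/

set_option autoImplicit false

namespace Pool.CND

open Finset

/-- the order of a product -/
theorem THTaux.ord_prod {k L ι : Type} [Field k] [Field L] [Algebra k L] (P : Place k L)
    (s : Finset ι) (f : ι → L) (h : ∀ i ∈ s, f i ≠ 0) :
    P.ord (∏ i ∈ s, f i) = ∑ i ∈ s, P.ord (f i) := by
  classical
  induction s using Finset.induction_on with
  | empty => simp [P.ord_one]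
  | insert a s ha ih =>
    rw [prod_insert ha, sum_insert ha, P.ord_mul _ _ (h a (mem_insert_self a s))
      (prod_ne_zero_iff.2 fun i hi => h i (mem_insert_of_mem hi)),
      ih (fun i hi => h i (mem_insert_of_mem hi))]

theorem tht_thm (hBAS : S_BAS) (hQSM : S_QSM) (hRMX : S_RMX) (hLO2 : S_LO2) (hINJ : S_INJ) :
    S_THT := by
  classical
  intro p k L G _ _ _ _ _ _ ρ t P M hcv hMn
  haveI := hMn
  obtain ⟨_, hfx, _, _, hinj⟩ := hBAS p k L G ρ t P hcv
  obtain ⟨E, ρ', t', Q, hE, _, hρ', hcv', hQ, hb⟩ := hQSM p k L G ρ t P M hcv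
  obtain ⟨_, hfx', _, hum', hinj'⟩ := hBAS p k E (G ⧸ M) ρ' t' Q hcv'
  obtain ⟨α, hα0, hαM, hαo⟩ := hRMX k L G P ρ M M (fun g => ⟨fun hg => ⟨hg, hfx g⟩, fun hg => hg.1⟩)
  have hMpos : (0 : ℤ) < Nat.card M := by exact_mod_cast Nat.card_pos
  -- the conjugates
  obtain ⟨a, ha⟩ : ∃ a : G ⧸ M → L, ∀ g : G, a (g : G ⧸ M) = ρ g α := by
    refine ⟨fun q => ρ q.out α, fun g => ?_⟩
    have h1 : (((g : G ⧸ M).out : G) : G ⧸ M) = (g : G ⧸ M) := QuotientGroup.out_eq' _
    have h2 : g⁻¹ * (g : G ⧸ M).out ∈ M := QuotientGroup.eq.1 h1.symm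
    have h3 := hαM _ h2
    have h4 : (g : G ⧸ M).out = g * (g⁻¹ * (g : G ⧸ M).out) := by group
    show ρ (g : G ⧸ M).out α = ρ g α
    rw [h4, map_mul, AlgEquiv.mul_apply, h3]
  have ha1 : a 1 = α := by
    have := ha 1
    rwa [map_one, AlgEquiv.one_apply] at this
  have hact : ∀ (g : G) (r : G ⧸ M), ρ g (a r) = a ((g : G ⧸ M) * r) := by
    intro g r
    obtain ⟨h, rfl⟩ := QuotientGroup.mk_surjective r
    change ρ g (a (h : G ⧸ M)) = a ((g : G ⧸ M) * (h : G ⧸ M))
    rw [ha, ← QuotientGroup.mk_mul, ha, map_mul, AlgEquiv.mul_apply]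
  -- orders of the differences
  have hdiff : ∀ g : G, g ∉ M → α - ρ g α ≠ 0 ∧
      P.ord (α - ρ g α) = Nat.card M + sm (fun g => P.b (ρ g)) {y | g⁻¹ * y ∈ M} := by
    intro g hg
    let α' : E := ⟨α, (hE α).2 hαM⟩
    have hα'0 : α' ≠ 0 := fun h => hα0 (congrArg (fun z : E => (z : L)) h)
    have hα'o : Q.ord α' = 1 := by
      have h1 := hQ α' hα'0
      change (Nat.card M : ℤ) * Q.ord α' = P.ord α at h1
      rw [hαo] at h1
      have h2 : (Nat.card M : ℤ) * (Q.ord α' - 1) = 0 := by linarith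
      rcases mul_eq_zero.1 h2 with h3 | h3
      · omega
      · omega
    have hg1 : (g : G ⧸ M) ≠ 1 := fun h => hg ((QuotientGroup.eq_one_iff g).1 h)
    have hpos : 1 ≤ Q.b (ρ' (g : G ⧸ M)) := hum'.pos _ (Subgroup.mem_top _) hg1
    have hne : ρ' (g : G ⧸ M) Q.pi ≠ Q.pi := by
      intro h
      have h1 := hINJ k E Q (ρ' (g : G ⧸ M)) Q.pi (hfx' _) Q.pi_ne Q.ord_pi h
      exact hg1 (hinj' (by rw [h1, map_one]))
    have hord : Q.ord (ρ' (g : G ⧸ M) Q.pi - Q.pi) = Q.b (ρ' (g : G ⧸ M)) + 1 := by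
      unfold Place.b
      ring
    have h5 := (hLO2 p k E Q (ρ' (g : G ⧸ M)) Q.pi (Q.b (ρ' (g : G ⧸ M))) hcv.pr hcv.ch
      (hfx' _) Q.pi_ne Q.ord_pi hpos hne hord α' hα'0).1 (by
        rw [hα'o]
        intro h
        have h6 := Int.le_of_dvd one_pos h
        have h7 := hcv.pr.two_le
        omega)
    have h8 : ρ' (g : G ⧸ M) α' - α' ≠ 0 := sub_ne_zero.2 h5.1
    have h9 : ((ρ' (g : G ⧸ M) α' - α' : E) : L) = ρ g α - α := by
      have := hρ' g α'
      change ((ρ' (g : G ⧸ M) α' : E) : L) - (α' : L) = _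
      rw [this]
    have h10 := hQ _ h8
    rw [h9, h5.2, hα'o] at h10
    have h11 : ρ g α - α ≠ 0 := by
      rw [← h9]
      exact fun h => h8 (Subtype.ext h)
    refine ⟨?_, ?_⟩
    · rw [← neg_sub]
      exact neg_ne_zero.2 h11
    · rw [← neg_sub, P.ord_neg, ← h10, hb g hg]
      ring
  have hainj : Function.Injective a := by
    intro q r hqr
    obtain ⟨g, rfl⟩ := QuotientGroup.mk_surjective q
    obtain ⟨h, rfl⟩ := QuotientGroup.mk_surjective r
    change a (g : G ⧸ M) = a (h : G ⧸ M) at hqr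
    rw [ha, ha] at hqr
    by_contra hne
    have h1 : g⁻¹ * h ∉ M := fun h' => hne (QuotientGroup.eq.2 h')
    apply (hdiff _ h1).1
    rw [map_mul, AlgEquiv.mul_apply, ← hqr, ← AlgEquiv.mul_apply, ← map_mul, inv_mul_cancel,
      map_one, AlgEquiv.one_apply, sub_self]
  -- Lagrange interpolation
  obtain ⟨e, he⟩ : ∃ e, e = (univ : Finset (G ⧸ M)).card := ⟨_, rfl⟩
  have hepos : 0 < e := by
    rw [he]
    exact card_pos.2 ⟨1, mem_univ _⟩
  obtain ⟨F, hF⟩ : ∃ F : G ⧸ M → L, ∀ q, F q =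
    (a q) ^ (e - 1) / ∏ r ∈ univ.erase q, (a q - a r) := ⟨_, fun _ => rfl⟩
  have hlag : ∑ q : G ⧸ M, F q = 1 := by
    have h1 := Lagrange.coeff_eq_sum (F := L) (s := (univ : Finset (G ⧸ M))) (v := a)
      hainj.injOn (P := Polynomial.X ^ (e - 1)) (by
        rw [Polynomial.degree_X_pow, ← he]
        exact_mod_cast Nat.sub_lt hepos one_pos)
    rw [← he, Polynomial.coeff_X_pow, if_pos rfl] at h1
    rw [h1]
    refine sum_congr rfl fun q _ => ?_
    rw [hF, Polynomial.eval_pow, Polynomial.eval_X]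
  have hρF : ∀ g : G, ρ g (F 1) = F (g : G ⧸ M) := by
    intro g
    rw [hF, hF, map_div₀, map_pow, map_prod, hact, mul_one]
    congr 1
    refine prod_nbij' (fun r => (g : G ⧸ M) * r) (fun r => (g : G ⧸ M)⁻¹ * r) ?_ ?_ ?_ ?_ ?_
    · intro r hr
      rw [mem_erase] at hr ⊢
      refine ⟨fun h => hr.1 ?_, mem_univ _⟩
      exact mul_eq_left.1 h
    · intro r hr
      rw [mem_erase] at hr ⊢
      refine ⟨fun h => hr.1 ?_, mem_univ _⟩
      rw [inv_mul_eq_one] at h
      exact h.symm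
    · intro r _
      exact inv_mul_cancel_left _ _
    · intro r _
      exact mul_inv_cancel_left _ _
    · intro r _
      rw [map_sub, hact, hact, mul_one]
  have hd0 : ∀ r ∈ (univ : Finset (G ⧸ M)).erase 1, a 1 - a r ≠ 0 := by
    intro r hr
    rw [mem_erase] at hr
    exact sub_ne_zero.2 fun h => hr.1 (hainj h).symm
  have hprod0 : ∏ r ∈ (univ : Finset (G ⧸ M)).erase 1, (a 1 - a r) ≠ 0 := prod_ne_zero_iff.2 hd0
  have ha10 : a 1 ≠ 0 := by rw [ha1]; exact hα0
  refine ⟨F 1, univ.image (fun q : G ⧸ M => q.out), ?_, ?_, ?_, ?_, ?_⟩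
  · rw [hF]
    exact div_ne_zero (pow_ne_zero _ ha10) hprod0
  · intro m hm
    rw [hρF, (QuotientGroup.eq_one_iff m).2 hm]
  · have hs : ∀ r ∈ (univ : Finset (G ⧸ M)).erase 1, P.ord (a 1 - a r) =
        Nat.card M + ∑ g ∈ univ.filter (fun g : G => (g : G ⧸ M) = r), P.b (ρ g) := by
      intro r hr
      rw [mem_erase] at hr
      obtain ⟨g, rfl⟩ := QuotientGroup.mk_surjective r
      have hg : g ∉ M := fun h => hr.1 ((QuotientGroup.eq_one_iff g).2 h)
      change P.ord (a 1 - a (g : G ⧸ M)) = _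
      rw [ha1, ha, (hdiff g hg).2]
      congr 1
      unfold sm
      refine sum_congr ?_ fun _ _ => rfl
      ext y
      simp only [mem_filter, mem_univ, true_and, Set.mem_setOf_eq]
      rw [← QuotientGroup.eq]
      exact eq_comm
    have hSo : ∑ r ∈ (univ : Finset (G ⧸ M)).erase 1,
        ∑ g ∈ univ.filter (fun g : G => (g : G ⧸ M) = r), P.b (ρ g) = So P ρ M := by
      have e1 : So P ρ M = ∑ g ∈ univ.filter (fun g : G => g ∉ M), P.b (ρ g) := by
        unfold So sm
        refine sum_congr ?_ fun _ _ => rfl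
        ext y
        simp only [mem_filter, mem_univ, true_and, Set.mem_setOf_eq]
      rw [e1, ← sum_fiberwise_of_maps_to (s := univ.filter (fun g : G => g ∉ M))
        (t := (univ : Finset (G ⧸ M)).erase 1) (g := fun g : G => (g : G ⧸ M))]
      · refine sum_congr rfl fun r hr => ?_
        refine sum_congr ?_ fun _ _ => rfl
        ext y
        simp only [mem_filter, mem_univ, true_and]
        constructor
        · intro h
          refine ⟨fun hy => ?_, h⟩
          rw [mem_erase] at hr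
          exact hr.1 (h ▸ (QuotientGroup.eq_one_iff y).2 hy)
        · exact fun h => h.2
      · intro g hg
        simp only [mem_filter, mem_univ, true_and] at hg
        rw [mem_erase]
        exact ⟨fun h => hg ((QuotientGroup.eq_one_iff g).1 h), mem_univ _⟩
    rw [hF, P.ord_div (pow_ne_zero _ ha10) hprod0, P.ord_pow ha10, THTaux.ord_prod P _ _ hd0,
      sum_congr rfl hs, sum_add_distrib, hSo, sum_const, card_erase_of_mem (mem_univ _), ← he,
      ha1, hαo, nsmul_eq_mul]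
    ring
  · intro g
    refine ⟨(g : G ⧸ M).out, ⟨mem_image_of_mem _ (mem_univ _), ?_⟩, ?_⟩
    · exact QuotientGroup.eq.1 (QuotientGroup.out_eq' _)
    · rintro s ⟨hs1, hs2⟩
      obtain ⟨q, _, rfl⟩ := mem_image.1 hs1
      have h1 : ((q.out : G) : G ⧸ M) = (g : G ⧸ M) := QuotientGroup.eq.2 hs2
      rw [QuotientGroup.out_eq'] at h1
      rw [h1]
  · rw [sum_image]
    · rw [← hlag]
      refine sum_congr rfl fun q _ => ?_
      rw [hρF, QuotientGroup.out_eq']
    · intro q _ r _ h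
      have h1 := congrArg (fun z : G => (z : G ⧸ M)) h
      simpa only [QuotientGroup.out_eq'] using h1

end Pool.CND
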